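import Mathlib

/-!
MP_02e4ca_lc: a computably bounded Pi^0_1 class (three points) that is in bijection with the class
of solutions of no dimension problem: the number of solutions is 0, 1, even or infinite.
-/

namespace Pool.Agent.Results.MP_02e4ca_lc.No

/-- `T` is closed under initial segments. -/
def IsTree (T : List ℕ → Prop) : Prop := ∀ σ τ : List ℕ, σ <+: τ → T τ → T σ

/-- `[T]`, the infinite paths through `T`. -/
def paths (T : List ℕ → Prop) : Set (ℕ → ℕ) := {x | ∀ n, T ((List.range n).map x)}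

/-- Computably bounded Pi^0_1 class. -/
def CB (P : Set (ℕ → ℕ)) : Prop :=
  ∃ (T : List ℕ → Prop) (g : List ℕ → ℕ), IsTree T ∧ ComputablePred T ∧ Computable g ∧
    (∀ σ i, T (σ ++ [i]) → i < g σ) ∧ P = paths T

/-- `L` is a (reflexive) linear ordering of the set `A`. -/
def LinOn (A : Set ℕ) (L : ℕ → ℕ → Prop) : Prop :=
  (∀ a b, L a b → a ∈ A ∧ b ∈ A) ∧ (∀ a ∈ A, ∀ b ∈ A, L a b ∨ L b a) ∧
    (∀ a b, L a b → L b a → a = b) ∧ (∀ a b c, L a b → L b c → L a c)

/-- Solutions of the `n`-dimensionality problem for `(A, R)`. -/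
def Sol (A : Set ℕ) (R : ℕ → ℕ → Prop) (n : ℕ) : Set (Fin n → ℕ → ℕ → Prop) :=
  {L | (∀ i, LinOn A (L i)) ∧ ∀ a b, R a b ↔ ∀ i, L i a b}

def T3 (σ : List ℕ) : Prop := ∃ c < 3, σ = List.replicate σ.length c

theorem T3_tree : IsTree T3 := by
  rintro σ τ ⟨ρ, rfl⟩ ⟨c, hc, h⟩
  refine ⟨c, hc, ?_⟩
  rw [List.eq_replicate_iff] at h ⊢
  exact ⟨rfl, fun b hb => h.2 b (List.mem_append_left _ hb)⟩

theorem repl_prim (c : ℕ) : Primrec fun n : ℕ => List.replicate n c := by
  have : Primrec fun n : ℕ => (List.range n).map (fun _ => c) :=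
    Primrec.list_map Primrec.list_range (Primrec.const c).to₂
  refine this.of_eq fun n => ?_
  simp

theorem T3_comp : ComputablePred T3 := by
  have h : ∀ c : ℕ, PrimrecPred fun σ : List ℕ => σ = List.replicate σ.length c := fun c =>
    Primrec.eq.comp Primrec.id ((repl_prim c).comp Primrec.list_length)
  have h2 : PrimrecPred T3 := by
    refine (((h 0).or (h 1)).or (h 2)).of_eq fun σ => ?_
    constructor
    · rintro ((h | h) | h)
      exacts [⟨0, by omega, h⟩, ⟨1, by omega, h⟩, ⟨2, by omega, h⟩]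
    · rintro ⟨c, hc, h⟩
      interval_cases c <;> tauto
  exact h2.computablePred

theorem paths_T3 (x : ℕ → ℕ) : x ∈ paths T3 ↔ ∃ c < 3, x = fun _ => c := by
  constructor
  · intro h
    have key : ∀ n, x n < 3 ∧ x n = x 0 := by
      intro n
      obtain ⟨c, hc, h⟩ := h (n + 1)
      rw [List.eq_replicate_iff] at h
      have h1 := h.2 (x n) (List.mem_map.2 ⟨n, by simp, rfl⟩)
      have h2 := h.2 (x 0) (List.mem_map.2 ⟨0, by simp, rfl⟩)
      omega
    exact ⟨x 0, (key 0).1, funext fun n => (key n).2⟩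
  · rintro ⟨c, hc, rfl⟩ n
    exact ⟨c, hc, by simp⟩

noncomputable def e3 : Fin 3 ≃ paths T3 :=
  Equiv.ofBijective (fun c => ⟨fun _ => c.1, (paths_T3 _).2 ⟨c.1, c.2, rfl⟩⟩) (by
    constructor
    · intro a b h
      exact Fin.ext (congrFun (congrArg Subtype.val h) 0)
    · rintro ⟨x, hx⟩
      obtain ⟨c, hc, rfl⟩ := (paths_T3 x).1 hx
      exact ⟨⟨c, hc⟩, rfl⟩)

theorem lin_eq {A : Set ℕ} {L M : ℕ → ℕ → Prop} (hL : LinOn A L) (hM : LinOn A M)
    (h : ∀ a b, M a b → L a b) : L = M := by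
  funext a b
  apply propext
  refine ⟨fun hab => ?_, h a b⟩
  obtain ⟨ha, hb⟩ := hL.1 a b hab
  rcases hM.2.1 a ha b hb with h1 | h1
  · exact h1
  · have := hL.2.2.1 a b hab (h b a h1)
    subst this
    exact h1

open Classical in
/-- Exchange the first order with another one, everywhere in the tuple. -/
noncomputable def flip {α : Type} {n : ℕ} (L : Fin (n + 1) → α) : Fin (n + 1) → α :=
  fun i => Equiv.swap (L 0) (L (Classical.epsilon fun j => L j ≠ L 0)) (L i)

theorem flip_flip {α : Type} {n : ℕ} (L : Fin (n + 1) → α) : flip (flip L) = L := by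
  classical
  have h : (fun j => flip L j ≠ flip L 0) = fun j => L j ≠ L 0 := by
    funext j
    exact propext (Equiv.injective _).ne_iff
  funext i
  have e1 : flip (flip L) i = Equiv.swap (flip L 0)
      (flip L (Classical.epsilon fun j => L j ≠ L 0)) (flip L i) := by
    rw [← h]
    rfl
  rw [e1]
  simp only [flip, Equiv.swap_apply_left, Equiv.swap_apply_right]
  rw [Equiv.swap_comm (L _) (L 0), Equiv.swap_apply_self]

theorem flip_range {α : Type} {n : ℕ} (L : Fin (n + 1) → α) (i : Fin (n + 1)) :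
    ∃ j, flip L i = L j := by
  classical
  unfold flip
  rw [Equiv.swap_apply_def]
  split_ifs
  exacts [⟨_, rfl⟩, ⟨_, rfl⟩, ⟨_, rfl⟩]

theorem flip_sol {A R n} {L : Fin (n + 1) → ℕ → ℕ → Prop} (h : L ∈ Sol A R (n + 1)) :
    flip L ∈ Sol A R (n + 1) := by
  refine ⟨fun i => ?_, fun a b => ?_⟩
  · obtain ⟨j, hj⟩ := flip_range L i
    rw [hj]
    exact h.1 j
  · rw [h.2]
    constructor
    · intro H i
      obtain ⟨j, hj⟩ := flip_range L i
      rw [hj]
      exact H j
    · intro H i
      obtain ⟨j, hj⟩ := flip_range (flip L) i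
      rw [flip_flip] at hj
      rw [hj]
      exact H j

theorem fin3 : ∀ f : Fin 3 → Fin 3, (∀ x, f (f x) = x) → ∃ x, f x = x := by decide

end Pool.Agent.Results.MP_02e4ca_lc.No

open Pool.Agent.Results.MP_02e4ca_lc.No in
theorem Pool.Agent.Results.MP_02e4ca_lc.No.result :
    ∃ P : Set (ℕ → ℕ), CB P ∧
      ∀ (A : Set ℕ) (R : ℕ → ℕ → Prop) (n : ℕ), IsEmpty (Sol A R n ≃ P) := by
  refine ⟨paths T3, ⟨T3, fun _ => 3, T3_tree, T3_comp, Computable.const 3, ?_, rfl⟩, ?_⟩
  · rintro σ i ⟨c, hc, h⟩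
    rw [List.eq_replicate_iff] at h
    rw [h.2 i (by simp)]
    exact hc
  intro A R n
  refine ⟨fun e0 => ?_⟩
  let e : Fin 3 ≃ Sol A R n := e3.trans e0.symm
  have hne : (e 0).1 ≠ (e 1).1 := fun h => absurd (e.injective (Subtype.ext h)) (by decide)
  cases n with
  | zero => exact hne (Subsingleton.elim _ _)
  | succ n =>
    obtain ⟨x, hx⟩ := fin3 (fun x => e.symm ⟨flip (e x).1, flip_sol (e x).2⟩) (by
      intro x
      simp only [Equiv.apply_symm_apply, flip_flip, Subtype.coe_eta, Equiv.symm_apply_apply])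
    have hx' : flip (e x).1 = (e x).1 := by
      have := congrArg e hx
      rw [Equiv.apply_symm_apply] at this
      exact congrArg Subtype.val this
    have hconst : ∀ j, (e x).1 j = (e x).1 0 := by
      by_contra hc
      push Not at hc
      have h1 := Classical.epsilon_spec hc
      have h2 := congrFun hx' 0
      simp only [flip, Equiv.swap_apply_left] at h2
      exact h1 h2
    have hall : ∀ (M : Sol A R (n + 1)) i, M.1 i = (e x).1 0 := by
      intro M i
      refine lin_eq (M.2.1 i) ((e x).2.1 0) fun a b hab => ?_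
      exact (M.2.2 a b).1 (((e x).2.2 a b).2 fun j => by rw [hconst j]; exact hab) i
    exact hne (funext fun i => (hall _ i).trans (hall _ i).symm)
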